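import Mathlib

set_option autoImplicit false

open Set

namespace Pool.Agent.MP_5a5b3b_co.H17

/-- The Euclidean plane. -/
abbrev Plane : Type := EuclideanSpace ℝ (Fin 2)

/-- A tiling of the plane: a countable family of closed sets that covers the plane and whose
members have pairwise disjoint interiors. -/
structure IsTiling (𝒯 : Set (Set Plane)) : Prop where
  countable : 𝒯.Countable
  closed : ∀ T ∈ 𝒯, IsClosed T
  covers : ⋃₀ 𝒯 = univ
  disjoint_interiors : ∀ S ∈ 𝒯, ∀ T ∈ 𝒯, S ≠ T → Disjoint (interior S) (interior T)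

/-- A symmetry of a family of sets: an isometry of the plane that permutes the members. -/
def IsSymmetry (𝒯 : Set (Set Plane)) (g : Plane ≃ᵢ Plane) : Prop :=
  (fun T : Set Plane => g '' T) '' 𝒯 = 𝒯

/-- An isohedral tiling: a tiling whose symmetry group acts transitively on the tiles. -/
def IsIsohedral (𝒯 : Set (Set Plane)) : Prop :=
  IsTiling 𝒯 ∧ ∀ S ∈ 𝒯, ∀ T ∈ 𝒯, ∃ g : Plane ≃ᵢ Plane, IsSymmetry 𝒯 g ∧ g '' S = T

end Pool.Agent.MP_5a5b3b_co.H17
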