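import Pool.Agent.MP_5a5b3b_co.h17.Defs

set_option autoImplicit false

open Set Metric

namespace Pool.Agent.MP_5a5b3b_co.H17

/-- The isometry group of the plane. -/
abbrev G : Type := Plane ≃ᵢ Plane

/-- Infinitely many points in a bounded part of a proper space: two of them are close. -/
lemma pigeon {ι X : Type*} [Infinite ι] [PseudoMetricSpace X] [ProperSpace X] (f : ι → X)
    (c : X) (R : ℝ) (hb : ∀ i, f i ∈ closedBall c R) {ε : ℝ} (hε : 0 < ε) :
    ∃ i j, i ≠ j ∧ dist (f i) (f j) < ε := by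
  obtain ⟨t, ht, hcov⟩ := Metric.totallyBounded_iff.1
    (isCompact_closedBall c R).totallyBounded (ε / 2) (by positivity)
  have : ∀ i, ∃ y : t, f i ∈ ball (y : X) (ε / 2) := by
    intro i
    have := hcov (hb i)
    simp only [mem_iUnion] at this
    obtain ⟨y, hy, h⟩ := this
    exact ⟨⟨y, hy⟩, h⟩
  choose φ hφ using this
  have := ht.to_subtype
  obtain ⟨i, j, hij, h⟩ := Finite.exists_ne_map_eq_of_infinite φ
  refine ⟨i, j, hij, ?_⟩
  have h1 := hφ i
  have h2 := hφ j
  rw [← h] at h2
  rw [mem_ball] at h1 h2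
  calc dist (f i) (f j) ≤ dist (f i) (φ i) + dist (f j) (φ i) := dist_triangle_right _ _ _
    _ < ε / 2 + ε / 2 := add_lt_add h1 h2
    _ = ε := by ring

lemma image_mul (g h : G) (A : Set Plane) : (g * h) '' A = g '' (h '' A) := by
  rw [IsometryEquiv.coe_mul, image_comp]

lemma image_one (A : Set Plane) : (1 : G) '' A = A := by
  simp

lemma image_inv_image (g : G) (A : Set Plane) : (g⁻¹ : G) '' (g '' A) = A := by
  rw [← image_mul, inv_mul_cancel, image_one]

lemma image_image_inv (g : G) (A : Set Plane) : g '' ((g⁻¹ : G) '' A) = A := by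
  rw [← image_mul, mul_inv_cancel, image_one]

lemma image_interior (g : G) (A : Set Plane) : g '' interior A = interior (g '' A) :=
  g.toHomeomorph.image_interior A

lemma isClosed_image (g : G) {A : Set Plane} (hA : IsClosed A) : IsClosed (g '' A) :=
  g.toHomeomorph.isClosedMap A hA

/-- An isometry that maps a compact set into itself maps it onto itself. -/
lemma image_eq_of_subset (g : G) {K : Set Plane} (hK : IsCompact K) (h : g '' K ⊆ K) :
    g '' K = K := by
  refine h.antisymm fun x hx => ?_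
  by_contra hx'
  obtain ⟨δ, hδ, hball⟩ := Metric.isOpen_iff.1 (isClosed_image g hK.isClosed).isOpen_compl x hx'
  obtain ⟨R, hR⟩ := (Metric.isBounded_iff_subset_closedBall x).1 hK.isBounded
  have hmem : ∀ n : ℕ, (g ^ n) x ∈ K := by
    intro n
    induction n with
    | zero => simpa using hx
    | succ n ih => rw [pow_succ']; exact h ⟨_, ih, rfl⟩
  have key : ∀ m n : ℕ, m < n → δ ≤ dist ((g ^ m) x) ((g ^ n) x) := by
    intro m n hmn
    obtain ⟨k, rfl⟩ := Nat.exists_eq_add_of_lt hmn
    rw [add_assoc, pow_add, IsometryEquiv.mul_apply, IsometryEquiv.dist_eq, pow_succ']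
    by_contra hlt
    exact hball (show (g * g ^ k) x ∈ ball x δ by rw [mem_ball, dist_comm]; exact not_le.1 hlt)
      ⟨_, hmem k, rfl⟩
  obtain ⟨i, j, hij, hd⟩ := pigeon (fun n : ℕ => (g ^ n) x) x R (fun n => hR (hmem n)) hδ
  rcases lt_or_gt_of_ne hij with h1 | h1
  · exact absurd hd (not_lt.2 (key i j h1))
  · rw [dist_comm] at hd
    exact absurd hd (not_lt.2 (key j i h1))

/-- The linear part of an isometry. -/
noncomputable def lin (g : G) : Plane ≃ₗᵢ[ℝ] Plane := g.toRealLinearIsometryEquiv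

lemma lin_sub (g : G) (x y : Plane) : lin g (x - y) = g x - g y := by
  rw [map_sub]
  simp [lin]

lemma apply_eq (g : G) (x : Plane) : g x = lin g x + g 0 := by
  simp [lin]

lemma lin_mul (g h : G) (v : Plane) : lin (g * h) v = lin g (lin h v) := by
  have h1 := lin_sub (g * h) v 0
  have h2 := lin_sub h v 0
  rw [sub_zero] at h1 h2
  rw [h1, h2, lin_sub]
  rfl

lemma lin_one (v : Plane) : lin 1 v = v := by
  simp [lin]

lemma lin_inv_lin (g : G) (v : Plane) : lin g⁻¹ (lin g v) = v := by
  rw [← lin_mul, inv_mul_cancel, lin_one]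

lemma lin_lin_inv (g : G) (v : Plane) : lin g (lin g⁻¹ v) = v := by
  rw [← lin_mul, mul_inv_cancel, lin_one]

/-- The linear part is `ε`-close to the identity. -/
def Small (ε : ℝ) (g : G) : Prop := ∀ v : Plane, ‖lin g v - v‖ ≤ ε * ‖v‖

lemma Small.mono {ε ε' : ℝ} {g : G} (h : Small ε g) (hε : ε ≤ ε') : Small ε' g :=
  fun v => (h v).trans (mul_le_mul_of_nonneg_right hε (norm_nonneg v))

lemma Small.conj {ε : ℝ} {k : G} (h : Small ε k) (g : G) : Small ε (g⁻¹ * k * g) := by
  intro v
  have : lin (g⁻¹ * k * g) v - v = lin g⁻¹ (lin k (lin g v) - lin g v) := by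
    rw [map_sub, lin_inv_lin, lin_mul, lin_mul]
  rw [this, LinearIsometryEquiv.norm_map]
  simpa using h (lin g v)

/-- A translation: the linear part is the identity. -/
def IsTr (g : G) : Prop := ∀ v : Plane, lin g v = v

lemma IsTr.apply {g : G} (h : IsTr g) (x : Plane) : g x = x + g 0 := by
  rw [apply_eq g x, h]

lemma IsTr.pow_apply {g : G} (h : IsTr g) (n : ℕ) (x : Plane) :
    (g ^ n) x = x + (n : ℝ) • g 0 := by
  induction n with
  | zero => simp
  | succ n ih =>
    rw [pow_succ', IsometryEquiv.mul_apply, h.apply, ih]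
    push_cast
    module

lemma IsTr.pow {g : G} (h : IsTr g) (n : ℕ) : IsTr (g ^ n) := by
  intro v
  induction n with
  | zero => simpa using lin_one v
  | succ n ih => rw [pow_succ, lin_mul, h, ih]

lemma IsTr.eq_one_of_zero {g : G} (h : IsTr g) (h0 : g 0 = 0) : g = 1 := by
  ext1 x
  rw [h.apply, h0]
  simp

/-- A translation that maps a bounded nonempty set into itself is the identity. -/
lemma IsTr.eq_one {g : G} (h : IsTr g) {A : Set Plane} (hA : Bornology.IsBounded A)
    (hne : A.Nonempty) (hg : g '' A ⊆ A) : g = 1 := by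
  obtain ⟨x, hx⟩ := hne
  obtain ⟨R, hR⟩ := (Metric.isBounded_iff_subset_closedBall x).1 hA
  have hmem : ∀ n : ℕ, (g ^ n) x ∈ A := by
    intro n
    induction n with
    | zero => simpa using hx
    | succ n ih => rw [pow_succ']; exact hg ⟨_, ih, rfl⟩
  apply h.eq_one_of_zero
  by_contra h0
  have hpos : 0 < ‖g 0‖ := norm_pos_iff.2 h0
  obtain ⟨n, hn⟩ := exists_nat_gt (R / ‖g 0‖)
  have := hR (hmem n)
  rw [h.pow_apply, mem_closedBall, dist_eq_norm, add_sub_cancel_left, norm_smul,
    Real.norm_natCast] at this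
  rw [div_lt_iff₀ hpos] at hn
  linarith

/-- In an infinite family of isometries two have close linear parts. -/
lemma exists_small {S : Set G} (hS : S.Infinite) {ε : ℝ} (hε : 0 < ε) :
    ∃ g ∈ S, ∃ h ∈ S, g ≠ h ∧ Small ε (h⁻¹ * g) := by
  have := hS.to_subtype
  obtain ⟨i, j, hij, hd⟩ := pigeon
    (fun g : S => ((lin g.1).toLinearIsometry.toContinuousLinearMap : Plane →L[ℝ] Plane)) 0 1
    (fun g => by
      rw [mem_closedBall, dist_zero_right]
      exact (lin g.1).toLinearIsometry.norm_toContinuousLinearMap_le) hε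
  refine ⟨i, i.2, j, j.2, fun h => hij (Subtype.ext h), fun v => ?_⟩
  have : lin ((j : G)⁻¹ * i) v - v = lin (j : G)⁻¹ (lin i v - lin j v) := by
    rw [map_sub, lin_inv_lin, lin_mul]
  rw [this, LinearIsometryEquiv.norm_map]
  rw [dist_eq_norm] at hd
  have h2 := ContinuousLinearMap.le_opNorm
    ((lin i.1).toLinearIsometry.toContinuousLinearMap -
      (lin j.1).toLinearIsometry.toContinuousLinearMap) v
  exact h2.trans (mul_le_mul_of_nonneg_right hd.le (norm_nonneg v))

/-- Complex coordinate. -/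
noncomputable def cx : Plane ≃ₗᵢ[ℝ] ℂ := Complex.orthonormalBasisOneI.repr.symm

/-- An isometry whose linear part is close to the identity is `z ↦ a z + b`. -/
lemma Small.complex {ε : ℝ} {g : G} (h : Small ε g) (hε : ε ≤ 1) :
    ∃ a : ℂ, ‖a‖ = 1 ∧ ‖a - 1‖ ≤ ε ∧ ∀ v, cx (lin g v) = a * cx v := by
  have key : ∀ z : ℂ, ‖cx (lin g (cx.symm z)) - z‖ ≤ ε * ‖z‖ := by
    intro z
    have := h (cx.symm z)
    rw [← cx.norm_map, map_sub, cx.apply_symm_apply, cx.symm.norm_map] at this
    exact this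
  obtain ⟨a, ha | ha⟩ := linear_isometry_complex (cx.symm.trans ((lin g).trans cx))
  · have e : ∀ z, cx (lin g (cx.symm z)) = a * z := fun z => by
      simpa using congrArg (fun f : ℂ ≃ₗᵢ[ℝ] ℂ => f z) ha
    refine ⟨a, a.norm_coe, by simpa [e] using key 1, fun v => ?_⟩
    simpa using e (cx v)
  · exfalso
    have e : ∀ z, cx (lin g (cx.symm z)) = a * (starRingEnd ℂ) z := fun z => by
      simpa using congrArg (fun f : ℂ ≃ₗᵢ[ℝ] ℂ => f z) ha
    have h1 := key 1
    have h2 := key Complex.I
    rw [e] at h1 h2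
    simp only [map_one, mul_one, norm_one, Complex.conj_I, Complex.norm_I] at h1 h2
    have h3 : (a : ℂ) * -Complex.I - Complex.I = -Complex.I * (a + 1) := by ring
    rw [h3, norm_mul, norm_neg, Complex.norm_I, one_mul] at h2
    have h4 := parallelogram_law_with_norm ℝ (a : ℂ) 1
    have h5 : ‖(a : ℂ)‖ = 1 := a.norm_coe
    rw [h5, norm_one] at h4
    nlinarith [norm_nonneg ((a : ℂ) + 1), norm_nonneg ((a : ℂ) - 1)]

/-- A rotation has a fixed point, and only one. -/
lemma exists_fixed {g : G} {a : ℂ} (ha : a ≠ 1) (hg : ∀ v, cx (lin g v) = a * cx v) :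
    ∃ c, g c = c ∧ ∀ x, g x = x → x = c := by
  have h1 : (1 - a) ≠ 0 := sub_ne_zero.2 ha.symm
  have e : ∀ x, cx (g x) = a * cx x + cx (g 0) := fun x => by
    rw [apply_eq g x, map_add, hg]
  refine ⟨cx.symm (cx (g 0) / (1 - a)), cx.injective ?_, fun x hx => cx.injective ?_⟩
  · rw [e, cx.apply_symm_apply]
    field_simp
    ring
  · have := e x
    rw [hx] at this
    rw [cx.apply_symm_apply, eq_div_iff h1]
    linear_combination this

end Pool.Agent.MP_5a5b3b_co.H17
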