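import Pool.Agent.MP_5a5b3b_co.h17.Tiles

set_option autoImplicit false

open Set Metric Filter

namespace Pool.Agent.MP_5a5b3b_co.H17

namespace Ctx

variable {𝒯 : Set (Set Plane)} {A : Set Plane} {x₀ : Plane} {ρ D : ℝ}

/-- A tile inside a congruent copy of the base tile is that copy. -/
lemma tile_eq (h : Ctx 𝒯 A x₀ ρ D) {B : Set Plane} (hB : B ∈ 𝒯) {w : G} (hs : B ⊆ w '' A) :
    B = w '' A := by
  obtain ⟨g, -, rfl⟩ := h.trans B hB
  have h1 : (w⁻¹ * g : G) '' A ⊆ A := by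
    rw [image_mul]
    exact (image_mono hs).trans (image_inv_image w A).le
  have h2 := image_eq_of_subset _ h.cpt h1
  conv_rhs => rw [← h2, image_mul, image_image_inv]

lemma split (h : Ctx 𝒯 A x₀ ρ D) {δ : G} (hd : Disjoint A (δ '' A)) {B : Set Plane} (hB : B ∈ 𝒯)
    {w : G} (hs : B ⊆ w '' (A ∪ δ '' A)) : B = w '' A ∨ B = (w * δ) '' A := by
  have hc : IsPreconnected B := by
    obtain ⟨g, -, rfl⟩ := h.trans B hB
    exact h.conn.image g g.continuous.continuousOn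
  rw [image_union, ← image_mul] at hs
  have hdis : Disjoint (w '' A) ((w * δ) '' A) := by
    rw [image_mul]
    exact (disjoint_image_iff w.injective).2 hd
  refine (isPreconnected_iff_subset_of_disjoint_closed.1 hc _ _
    (isClosed_image w h.cpt.isClosed) (isClosed_image _ h.cpt.isClosed) hs
    (by rw [hdis.inter_eq, inter_empty])).imp (h.tile_eq hB) (h.tile_eq hB)

/-- If every tile of `𝒮` is a union of tiles of `𝒯`, every tile of `𝒯` lies in a tile of `𝒮`. -/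
lemma exists_superset (h : Ctx 𝒯 A x₀ ρ D) {𝒮 : Set (Set Plane)} (h𝒮 : IsTiling 𝒮)
    (hr : ∀ S ∈ 𝒮, ∃ 𝒜 ⊆ 𝒯, S = ⋃₀ 𝒜) {B : Set Plane} (hB : B ∈ 𝒯) : ∃ S ∈ 𝒮, B ⊆ S := by
  have hd := dense_sUnion_interior_of_closed (S := {B' ∈ 𝒯 | ∃ S ∈ 𝒮, B' ⊆ S})
    (fun T hT => h.til.closed T hT.1) (h.til.countable.mono fun T hT => hT.1) (by
      apply eq_univ_of_forall
      intro x
      obtain ⟨S, hS, hx⟩ := h𝒮.exists_mem x
      obtain ⟨𝒜, h𝒜, rfl⟩ := hr S hS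
      obtain ⟨T, hT, hxT⟩ := hx
      exact ⟨T, ⟨h𝒜 hT, _, hS, subset_sUnion_of_mem hT⟩, hxT⟩)
  obtain ⟨g, -, rfl⟩ := h.trans B hB
  obtain ⟨x, hx1, hx2⟩ := hd.inter_open_nonempty _ isOpen_interior ⟨_, h.centre_mem g⟩
  simp only [mem_iUnion] at hx2
  obtain ⟨T, hT, hxT⟩ := hx2
  rw [h.til.eq_of_mem hB hT.1 hx1 hxT]
  exact hT.2

/-- A far translate of the base tile all of whose congruent placements are highly divisible. -/
lemma exists_delta (h : Ctx 𝒯 A x₀ ρ D) {N : ℕ} (hN : 0 < N) :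
    ∃ δ ∈ Γ 𝒯, IsTr δ ∧ Disjoint A (δ '' A) ∧
      ∀ u : G, u '' A = A → (u * δ) '' A ∈ 𝒯 → ∃ γ ∈ Γ 𝒯, u * δ * u⁻¹ = γ ^ N := by
  obtain ⟨τ, hτ, htr, hτ1⟩ := h.exists_translation
  have hge : ∀ n : ℕ, n ≤ n.factorial * N := fun n =>
    (Nat.self_le_factorial n).trans (Nat.le_mul_of_pos_right _ hN)
  have e1 : ∀ᶠ n : ℕ in atTop, Disjoint A ((τ ^ (n.factorial * N) : G) '' A) := by
    have hpos : 0 < ‖τ 0‖ := norm_pos_iff.2 fun h0 => hτ1 (htr.eq_one_of_zero h0)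
    obtain ⟨m, hm⟩ := exists_nat_gt (2 * D / ‖τ 0‖)
    filter_upwards [eventually_ge_atTop m] with n hn
    rw [disjoint_left]
    intro y hy hy'
    have d1 : dist y x₀ ≤ D := h.outer hy
    have d2 := h.dist_le _ hy'
    have d3 := dist_triangle_left x₀ ((τ ^ (n.factorial * N) : G) x₀) y
    rw [htr.pow_apply] at d2 d3
    rw [dist_self_add_right, norm_smul, Real.norm_natCast] at d3
    have d4 : (m : ℝ) ≤ (n.factorial * N : ℕ) := by exact_mod_cast hn.trans (hge n)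
    rw [div_lt_iff₀ hpos] at hm
    nlinarith
  have e2 : ∀ u ∈ {u : G | u '' A = A}, ∀ᶠ n : ℕ in atTop,
      (u * τ ^ (n.factorial * N) : G) '' A ∈ 𝒯 →
        ∃ γ ∈ Γ 𝒯, u * τ ^ (n.factorial * N) * u⁻¹ = γ ^ N := by
    intro u _
    by_cases hP : ∃ q : ℕ, 0 < q ∧ u * τ ^ q * u⁻¹ ∈ Γ 𝒯
    · obtain ⟨q, hq, hm⟩ := hP
      filter_upwards [eventually_ge_atTop q] with n hn _
      obtain ⟨k, hk⟩ := Nat.dvd_factorial hq hn
      refine ⟨(u * τ ^ q * u⁻¹) ^ k, pow_mem hm k, ?_⟩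
      rw [conj_pow, conj_pow, ← pow_mul, ← pow_mul, hk, mul_assoc q]
    · have hfin : {m : ℕ | (u * τ ^ m : G) '' A ∈ 𝒯}.Finite := by
        by_contra hinf
        have := Set.Infinite.to_subtype hinf
        have := h.sym_finite.to_subtype
        have hex : ∀ m : {m : ℕ | (u * τ ^ m : G) '' A ∈ 𝒯}, ∃ v : {u : G | u '' A = A},
            u * τ ^ (m : ℕ) * (v : G)⁻¹ ∈ Γ 𝒯 := by
          rintro ⟨m, hm⟩
          obtain ⟨g, hg, hgA⟩ := h.trans _ hm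
          refine ⟨⟨g⁻¹ * (u * τ ^ m), ?_⟩, ?_⟩
          · show (g⁻¹ * (u * τ ^ m) : G) '' A = A
            rw [image_mul, ← hgA, image_inv_image]
          · simpa [mul_assoc] using hg
        choose φ hφ using hex
        obtain ⟨i, j, hij, hφij⟩ := Finite.exists_ne_map_eq_of_infinite φ
        wlog hlt : (i : ℕ) < j generalizing i j
        · exact this j i hij.symm hφij.symm
            (lt_of_le_of_ne (not_lt.1 hlt) fun h' => hij (Subtype.ext h'.symm))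
        obtain ⟨k, hk⟩ := Nat.exists_eq_add_of_lt hlt
        apply hP
        refine ⟨k + 1, Nat.succ_pos k, ?_⟩
        have h1 := mul_mem (hφ j) (inv_mem (hφ i))
        rw [hφij, hk] at h1
        convert h1 using 1
        rw [show (i : ℕ) + k + 1 = (k + 1) + i by ring, pow_add]
        group
      obtain ⟨b, hb⟩ := hfin.bddAbove
      filter_upwards [eventually_gt_atTop b] with n hn hm
      exact absurd (hb hm) (not_le.2 (hn.trans_le (hge n)))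
  obtain ⟨n, hn1, hn2⟩ := (e1.and ((eventually_all_finite h.sym_finite).2 e2)).exists
  exact ⟨_, pow_mem hτ _, htr.pow _, hn1, hn2⟩

/-- Bounded index: a group with two orbits on the tiles contains a fixed power of each symmetry. -/
lemma pow_mem_of_two_orbits (h : Ctx 𝒯 A x₀ ρ D) :
    ∃ N : ℕ, 0 < N ∧ ∀ (H : Subgroup G) (w₁ w₂ : G),
      (∀ B ∈ 𝒯, ∃ σ ∈ H, B = (σ * w₁) '' A ∨ B = (σ * w₂) '' A) → ∀ γ ∈ Γ 𝒯, γ ^ N ∈ H := by
  have := h.sym_finite.fintype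
  set s := Fintype.card ({u : G | u '' A = A} × Bool) with hs
  refine ⟨s.factorial, Nat.factorial_pos s, fun H w₁ w₂ hH γ hγ => ?_⟩
  have hex : ∀ j : Fin (s + 1), ∃ p : {u : G | u '' A = A} × Bool,
      γ ^ (j : ℕ) * (p.1 : G)⁻¹ * (if p.2 then w₁ else w₂)⁻¹ ∈ H := by
    intro j
    obtain ⟨σ, hσ, hB | hB⟩ := hH _ (Γ_image (pow_mem hγ j) h.mem)
    · refine ⟨(⟨(σ * w₁)⁻¹ * γ ^ (j : ℕ), ?_⟩, true), ?_⟩
      · show ((σ * w₁)⁻¹ * γ ^ (j : ℕ) : G) '' A = A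
        rw [image_mul, hB, image_inv_image]
      · simpa using hσ
    · refine ⟨(⟨(σ * w₂)⁻¹ * γ ^ (j : ℕ), ?_⟩, false), ?_⟩
      · show ((σ * w₂)⁻¹ * γ ^ (j : ℕ) : G) '' A = A
        rw [image_mul, hB, image_inv_image]
      · simpa using hσ
  choose φ hφ using hex
  obtain ⟨i, j, hij, hφij⟩ := Fintype.exists_ne_map_eq_of_card_lt φ (by simp [hs])
  wlog hlt : (i : ℕ) < j generalizing i j
  · exact this j i hij.symm hφij.symm
      (lt_of_le_of_ne (not_lt.1 hlt) fun h' => hij (Fin.ext h'.symm))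
  obtain ⟨k, hk⟩ := Nat.exists_eq_add_of_lt hlt
  have h1 : γ ^ (k + 1) ∈ H := by
    have h1 := mul_mem (hφ j) (inv_mem (hφ i))
    rw [hφij, hk] at h1
    convert h1 using 1
    rw [show (i : ℕ) + k + 1 = (k + 1) + i by ring, pow_add]
    group
  obtain ⟨m, hm⟩ := Nat.dvd_factorial (Nat.succ_pos k) (show k + 1 ≤ s by have := j.2; omega)
  rw [hm, pow_mul]
  exact pow_mem h1 m

theorem main (h : Ctx 𝒯 A x₀ ρ D) : ∃ B ∈ 𝒯, Disjoint A B ∧
    ¬ ∃ 𝒮 : Set (Set Plane), IsIsohedral 𝒮 ∧ (∀ S ∈ 𝒮, ∃ g : G, g '' (A ∪ B) = S) ∧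
      ∀ S ∈ 𝒮, ∃ 𝒜 ⊆ 𝒯, S = ⋃₀ 𝒜 := by
  obtain ⟨N, hN, hpow⟩ := h.pow_mem_of_two_orbits
  obtain ⟨δ, hδ, htr, hdis, hdiv⟩ := h.exists_delta hN
  refine ⟨δ '' A, Γ_image hδ h.mem, hdis, ?_⟩
  rintro ⟨𝒮, h𝒮, hcong, hr⟩
  obtain ⟨S₀, hS₀, -⟩ := h𝒮.1.exists_mem 0
  obtain ⟨w, rfl⟩ := hcong S₀ hS₀
  have hwd : Disjoint (w '' A) ((w * δ) '' A) := by
    rw [image_mul]
    exact (disjoint_image_iff w.injective).2 hdis
  -- the two components of the chosen tile are tiles of `𝒯`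
  have hcomp : ∀ y ∈ w '' (A ∪ δ '' A), ∃ B ∈ 𝒯, y ∈ B ∧ (B = w '' A ∨ B = (w * δ) '' A) := by
    intro y hy
    obtain ⟨𝒜, h𝒜, he⟩ := hr _ hS₀
    have hy' := hy
    rw [he] at hy'
    obtain ⟨B, hB, hyB⟩ := hy'
    exact ⟨B, h𝒜 hB, hyB, h.split hdis (h𝒜 hB) (he ▸ subset_sUnion_of_mem hB)⟩
  have h1 : w '' A ∈ 𝒯 := by
    obtain ⟨B, hB, hy, rfl | rfl⟩ := hcomp (w x₀) ⟨x₀, Or.inl h.x₀_mem, rfl⟩
    · exact hB
    · exact absurd hy (disjoint_left.1 hwd ⟨x₀, h.x₀_mem, rfl⟩)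
  have h2 : (w * δ) '' A ∈ 𝒯 := by
    obtain ⟨B, hB, hy, rfl | rfl⟩ :=
      hcomp (w (δ x₀)) ⟨δ x₀, Or.inr ⟨x₀, h.x₀_mem, rfl⟩, rfl⟩
    · exact absurd hy (disjoint_right.1 hwd ⟨x₀, h.x₀_mem, rfl⟩)
    · exact hB
  obtain ⟨g, hg, hgA⟩ := h.trans _ h1
  obtain ⟨γ, hγ, he⟩ := hdiv (g⁻¹ * w) (by rw [image_mul, ← hgA, image_inv_image])
    (by rw [mul_assoc, image_mul]; exact Γ_image (inv_mem hg) h2)
  have horb : ∀ B ∈ 𝒯, ∃ σ ∈ Γ 𝒮, B = (σ * w) '' A ∨ B = (σ * (w * δ)) '' A := by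
    intro B hB
    obtain ⟨S, hS, hBS⟩ := h.exists_superset h𝒮.1 hr hB
    obtain ⟨σ, hσ, rfl⟩ := h𝒮.2 _ hS₀ S hS
    rw [← image_mul] at hBS
    exact ⟨σ, hσ, by simpa only [mul_assoc] using h.split hdis hB hBS⟩
  have hmem : w * δ * w⁻¹ ∈ Γ 𝒮 := by
    have := hpow (Γ 𝒮) w (w * δ) horb (g * γ * g⁻¹) (mul_mem (mul_mem hg hγ) (inv_mem hg))
    rw [conj_pow, ← he] at this
    convert this using 1
    group
  have h3 := Γ_image hmem hS₀
  have h4 : (w * δ * w⁻¹ : G) '' (w '' (A ∪ δ '' A)) = (w * δ) '' (A ∪ δ '' A) := by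
    rw [← image_mul]
    congr 2
    group
  rw [h4] at h3
  have h5 := h𝒮.1.eq_of_mem h3 hS₀ (x := (w * δ) x₀)
    (interior_mono (image_mono subset_union_left) (h.centre_mem (w * δ)))
    (interior_mono (by rw [image_mul]; exact image_mono subset_union_right) (h.centre_mem (w * δ)))
  rw [image_mul, image_eq_image w.injective] at h5
  have h6 := htr.eq_one (h.cpt.union (h.cpt.image δ.continuous)).isBounded
    (h.nonempty.mono subset_union_left) h5.le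
  rw [h6, image_one, disjoint_self] at hdis
  exact h.nonempty.ne_empty hdis

end Ctx

end Pool.Agent.MP_5a5b3b_co.H17
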