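import Pool.Agent.MP_5a5b3b_co.h17.Geom

set_option autoImplicit false

open Set Metric

namespace Pool.Agent.MP_5a5b3b_co.H17

/-- Rotation by the angle `θ` about `c`. -/
noncomputable def rot (c : Plane) (θ : ℝ) (z : Plane) : Plane :=
  c + cx.symm (Complex.exp (θ * Complex.I) * cx (z - c))

lemma rot_zero (c z : Plane) : rot c 0 z = z := by
  simp [rot]

lemma rot_add (c : Plane) (θ φ : ℝ) (z : Plane) : rot c θ (rot c φ z) = rot c (θ + φ) z := by
  simp only [rot, add_sub_cancel_left, LinearIsometryEquiv.apply_symm_apply]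
  congr 2
  push_cast
  rw [add_mul, Complex.exp_add]
  ring

/-- The angles of the rotations about `c` that preserve `A`. -/
def angles (c : Plane) (A : Set Plane) : AddSubgroup ℝ where
  carrier := {θ | ∀ z, z ∈ A ↔ rot c θ z ∈ A}
  zero_mem' := fun z => by rw [rot_zero]
  add_mem' := fun {θ φ} hθ hφ z => by rw [← rot_add, ← hθ, ← hφ]
  neg_mem' := fun {θ} hθ z => by rw [hθ (rot c (-θ) z), rot_add, add_neg_cancel, rot_zero]

lemma ne_one_of_preserves {A : Set Plane} (hb : Bornology.IsBounded A) (hne : A.Nonempty)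
    {u : G} (hu : u '' A = A) (hu1 : u ≠ 1) {a : ℂ} (ha : ∀ v, cx (lin u v) = a * cx v) :
    a ≠ 1 := by
  rintro rfl
  exact hu1 (IsTr.eq_one (fun v => cx.injective (by simpa using ha v)) hb hne hu.le)

/-- A closed bounded set with symmetries arbitrarily close to the identity is invariant under all
rotations about some point. -/
lemma round_of_small {A : Set Plane} (hc : IsClosed A) (hb : Bornology.IsBounded A)
    (hne : A.Nonempty) (h : ∀ ε > 0, ∃ u : G, u '' A = A ∧ u ≠ 1 ∧ Small ε u) :
    ∃ c : Plane, ∀ z ∈ A, ∀ w, dist w c = dist z c → w ∈ A := by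
  obtain ⟨u₀, hu₀, hu₀1, hs₀⟩ := h 1 one_pos
  obtain ⟨a₀, -, -, ha₀⟩ := hs₀.complex le_rfl
  obtain ⟨c, hc₀, huniq⟩ := exists_fixed (ne_one_of_preserves hb hne hu₀ hu₀1 ha₀) ha₀
  have fix : ∀ (u : G) (a : ℂ), u '' A = A → (∀ v, cx (lin u v) = a * cx v) → u c = c := by
    intro u a hu ha
    have h1 : IsTr ((u₀ * u)⁻¹ * (u * u₀)) := by
      intro v
      have : lin (u * u₀) v = lin (u₀ * u) v := by
        apply cx.injective
        rw [lin_mul, lin_mul, ha, ha₀, ha₀, ha]
        ring
      rw [lin_mul, this, lin_inv_lin]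
    have h2 : ((u₀ * u)⁻¹ * (u * u₀) : G) '' A = A := by
      have e1 : (u * u₀) '' A = (u₀ * u) '' A := by
        rw [image_mul, image_mul, hu₀, hu, hu₀]
      rw [image_mul, e1, image_inv_image]
    have h3 := h1.eq_one hb hne h2.le
    rw [inv_mul_eq_one] at h3
    apply huniq
    have := congrArg (fun g : G => g c) h3
    simpa [hc₀] using this
  have hdense : Dense (angles c A : Set ℝ) := by
    apply AddSubgroup.dense_of_not_isolated_zero
    intro ε hε
    obtain ⟨η, hη, hcont⟩ := Metric.continuousAt_iff.1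
      (Complex.continuousAt_arg (x := 1) (by simp)) ε hε
    obtain ⟨u, hu, hu1, hs⟩ := h (min 1 (η / 2)) (by positivity)
    obtain ⟨a, ha1, ha2, ha⟩ := hs.complex (min_le_left _ _)
    have hane := ne_one_of_preserves hb hne hu hu1 ha
    have harg : |a.arg| < ε := by
      have := hcont (x := a) (by
        rw [dist_eq_norm]
        exact ha2.trans_lt ((min_le_right _ _).trans_lt (by linarith)))
      simpa [Real.dist_eq] using this
    have hexp : Complex.exp (a.arg * Complex.I) = a := by
      simpa [ha1] using Complex.norm_mul_exp_arg_mul_I a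
    have hmem : a.arg ∈ angles c A := by
      intro z
      have e : rot c a.arg z = u z := by
        rw [rot, hexp, ← ha, cx.symm_apply_apply, lin_sub, fix u a hu ha]
        abel
      rw [e]
      constructor
      · intro hz
        rw [← hu]
        exact ⟨z, hz, rfl⟩
      · intro hz
        rw [← hu] at hz
        obtain ⟨y, hy, hyz⟩ := hz
        rwa [← u.injective hyz]
    have hne0 : a.arg ≠ 0 := by
      intro h0
      rw [h0] at hexp
      exact hane (by simpa using hexp.symm)
    refine ⟨|a.arg|, ?_, abs_pos.2 hne0, harg⟩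
    rcases abs_choice a.arg with h1 | h1 <;> rw [h1]
    · exact hmem
    · exact neg_mem hmem
  refine ⟨c, fun z hz w hw => ?_⟩
  have hall : ∀ θ : ℝ, rot c θ z ∈ A := by
    have hcl : IsClosed {θ : ℝ | rot c θ z ∈ A} := by
      apply hc.preimage (f := fun θ : ℝ => rot c θ z)
      unfold rot
      fun_prop
    intro θ
    exact hcl.closure_subset_iff.2 (fun φ hφ => (hφ z).1 hz) (hdense θ)
  by_cases hzc : z = c
  · rw [hzc, dist_self, dist_eq_zero] at hw
    rwa [hw, ← hzc]
  · have h0 : cx (z - c) ≠ 0 := by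
      rw [map_ne_zero_iff _ cx.injective]
      exact sub_ne_zero.2 hzc
    have hn : ‖cx (w - c) / cx (z - c)‖ = 1 := by
      rw [norm_div, cx.norm_map, cx.norm_map, ← dist_eq_norm, ← dist_eq_norm, hw, div_self]
      exact dist_ne_zero.2 hzc
    have hexp := Complex.norm_mul_exp_arg_mul_I (cx (w - c) / cx (z - c))
    rw [hn, Complex.ofReal_one, one_mul] at hexp
    have := hall (cx (w - c) / cx (z - c)).arg
    rw [rot, hexp, div_mul_cancel₀ _ h0, cx.symm_apply_apply] at this
    simpa using this

lemma one_lt_rank : 1 < Module.rank ℝ Plane := by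
  rw [← Module.finrank_eq_rank]
  simp

/-- Two circles of the same radius with close centres meet. -/
lemma circles_meet {c c' : Plane} {s : ℝ} (h0 : c ≠ c') (h : dist c c' ≤ 2 * s) :
    ∃ p, dist p c = s ∧ dist p c' = s := by
  have hd : 0 < ‖c' - c‖ := norm_pos_iff.2 (sub_ne_zero.2 h0.symm)
  rw [dist_comm, dist_eq_norm] at h
  have hs : 0 ≤ s := by linarith
  set d := ‖c' - c‖ with hdd
  have n1 : ∀ t : ℝ, dist (c + (t / d) • (c' - c)) c = |t| := by
    intro t
    rw [dist_eq_norm, add_sub_cancel_left, norm_smul, Real.norm_eq_abs, abs_div, abs_of_pos hd,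
      div_mul_cancel₀ _ hd.ne']
  have n2 : ∀ t : ℝ, dist (c + (t / d) • (c' - c)) c' = |t - d| := by
    intro t
    have : c + (t / d) • (c' - c) - c' = ((t - d) / d) • (c' - c) := by
      rw [sub_div, div_self hd.ne']
      module
    rw [dist_eq_norm, this, norm_smul, Real.norm_eq_abs, abs_div, abs_of_pos hd,
      div_mul_cancel₀ _ hd.ne']
  have := (isPreconnected_sphere one_lt_rank c s).intermediate_value
    (a := c + (s / d) • (c' - c)) (b := c + (-s / d) • (c' - c))
    (by rw [mem_sphere, n1, abs_of_nonneg hs]) (by rw [mem_sphere, n1, abs_neg, abs_of_nonneg hs])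
    (f := fun p => dist p c') (by fun_prop)
  obtain ⟨p, hp, hp'⟩ := this (show s ∈ Icc _ _ from ⟨by
    simp only [n2]
    rw [abs_le]
    constructor <;> linarith, by
    simp only [n2]
    rw [le_abs]
    right
    linarith⟩)
  exact ⟨p, hp, hp'⟩

lemma sphere_infinite (c : Plane) {r : ℝ} (hr : 0 < r) : (sphere c r).Infinite := by
  apply (isPreconnected_sphere one_lt_rank c r).infinite_of_nontrivial
  obtain ⟨v, hv⟩ := exists_norm_eq Plane hr.le
  refine ⟨c + v, by simp [hv], c - v, by simp [hv], fun h => ?_⟩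
  have : (2 : ℝ) • v = 0 := by
    have : (2 : ℝ) • v = (c + v) - (c - v) := by module
    rw [this, h, sub_self]
  rw [smul_eq_zero] at this
  rcases this with h1 | h1
  · norm_num at h1
  · rw [h1, norm_zero] at hv
    exact hr.ne hv

end Pool.Agent.MP_5a5b3b_co.H17
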