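import Pool.Agent.MP_5a5b3b_co.h17.Round

set_option autoImplicit false

open Set Metric

namespace Pool.Agent.MP_5a5b3b_co.H17

lemma isSymmetry_iff {𝒯 : Set (Set Plane)} {g : G} :
    IsSymmetry 𝒯 g ↔ (∀ T ∈ 𝒯, g '' T ∈ 𝒯) ∧ ∀ T ∈ 𝒯, (g⁻¹ : G) '' T ∈ 𝒯 := by
  constructor
  · intro h
    refine ⟨fun T hT => ?_, fun T hT => ?_⟩
    · rw [← h]
      exact ⟨T, hT, rfl⟩
    · rw [← h] at hT
      obtain ⟨S, hS, rfl⟩ := hT
      rwa [image_inv_image]
  · rintro ⟨h1, h2⟩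
    apply Subset.antisymm
    · rintro _ ⟨T, hT, rfl⟩
      exact h1 T hT
    · intro T hT
      exact ⟨_, h2 T hT, image_image_inv g T⟩

/-- The symmetry group of a family of sets. -/
def Γ (𝒯 : Set (Set Plane)) : Subgroup G where
  carrier := {g | IsSymmetry 𝒯 g}
  one_mem' := isSymmetry_iff.2 ⟨fun T hT => by rwa [image_one], fun T hT => by
    rwa [inv_one, image_one]⟩
  mul_mem' := fun {g h} hg hh => by
    obtain ⟨g1, g2⟩ := isSymmetry_iff.1 hg
    obtain ⟨h1, h2⟩ := isSymmetry_iff.1 hh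
    exact isSymmetry_iff.2 ⟨fun T hT => by rw [image_mul]; exact g1 _ (h1 T hT),
      fun T hT => by rw [mul_inv_rev, image_mul]; exact h2 _ (g2 T hT)⟩
  inv_mem' := fun {g} hg => by
    obtain ⟨g1, g2⟩ := isSymmetry_iff.1 hg
    exact isSymmetry_iff.2 ⟨g2, by rwa [inv_inv]⟩

lemma Γ_image {𝒯 : Set (Set Plane)} {g : G} (hg : g ∈ Γ 𝒯) {T : Set Plane} (hT : T ∈ 𝒯) :
    g '' T ∈ 𝒯 :=
  (isSymmetry_iff.1 hg).1 T hT

lemma IsTiling.eq_of_mem {𝒯 : Set (Set Plane)} (h : IsTiling 𝒯) {S T : Set Plane} (hS : S ∈ 𝒯)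
    (hT : T ∈ 𝒯) {x : Plane} (hx : x ∈ interior S) (hx' : x ∈ interior T) : S = T := by
  by_contra hne
  exact disjoint_left.1 (h.disjoint_interiors S hS T hT hne) hx hx'

lemma IsTiling.exists_mem {𝒯 : Set (Set Plane)} (h : IsTiling 𝒯) (x : Plane) :
    ∃ T ∈ 𝒯, x ∈ T := by
  have : x ∈ ⋃₀ 𝒯 := h.covers ▸ mem_univ x
  exact this

/-- An isohedral tiling with a compact connected base tile. -/
structure Ctx (𝒯 : Set (Set Plane)) (A : Set Plane) (x₀ : Plane) (ρ D : ℝ) : Prop where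
  til : IsTiling 𝒯
  mem : A ∈ 𝒯
  cpt : IsCompact A
  conn : IsPreconnected A
  pos : 0 < ρ
  inner : ball x₀ ρ ⊆ A
  outer : A ⊆ closedBall x₀ D
  trans : ∀ T ∈ 𝒯, ∃ g ∈ Γ 𝒯, g '' A = T

lemma exists_ctx {𝒯 : Set (Set Plane)} (h : IsIsohedral 𝒯)
    (hc : ∀ T ∈ 𝒯, IsCompact T ∧ IsPreconnected T) : ∃ A x₀ ρ D, Ctx 𝒯 A x₀ ρ D := by
  obtain ⟨x₀, hx⟩ :=
    (dense_sUnion_interior_of_closed h.1.closed h.1.countable h.1.covers).nonempty
  simp only [mem_iUnion] at hx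
  obtain ⟨A, hA, hx⟩ := hx
  obtain ⟨ρ, hρ, hb⟩ := Metric.mem_nhds_iff.1 (mem_interior_iff_mem_nhds.1 hx)
  obtain ⟨D, hD⟩ := (Metric.isBounded_iff_subset_closedBall x₀).1 (hc A hA).1.isBounded
  exact ⟨A, x₀, ρ, D, h.1, hA, (hc A hA).1, (hc A hA).2, hρ, hb, hD, fun T hT => h.2 A hA T hT⟩

namespace Ctx

variable {𝒯 : Set (Set Plane)} {A : Set Plane} {x₀ : Plane} {ρ D : ℝ}

lemma x₀_mem (h : Ctx 𝒯 A x₀ ρ D) : x₀ ∈ A := h.inner (mem_ball_self h.pos)

lemma nonempty (h : Ctx 𝒯 A x₀ ρ D) : A.Nonempty := ⟨x₀, h.x₀_mem⟩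

lemma D_nonneg (h : Ctx 𝒯 A x₀ ρ D) : 0 ≤ D := by
  simpa using h.outer h.x₀_mem

lemma ball_subset (h : Ctx 𝒯 A x₀ ρ D) (g : G) : ball (g x₀) ρ ⊆ interior (g '' A) := by
  apply interior_maximal _ isOpen_ball
  rw [← g.image_ball]
  exact image_mono h.inner

lemma centre_mem (h : Ctx 𝒯 A x₀ ρ D) (g : G) : g x₀ ∈ interior (g '' A) :=
  h.ball_subset g (mem_ball_self h.pos)

lemma dist_le (h : Ctx 𝒯 A x₀ ρ D) (g : G) {y : Plane} (hy : y ∈ g '' A) :
    dist y (g x₀) ≤ D := by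
  obtain ⟨z, hz, rfl⟩ := hy
  rw [g.dist_eq]
  exact h.outer hz

lemma close (h : Ctx 𝒯 A x₀ ρ D) {g k : G} (hg : g '' A ∈ 𝒯) (hk : k '' A ∈ 𝒯)
    (hd : dist (g x₀) (k x₀) < ρ) : g '' A = k '' A :=
  h.til.eq_of_mem hg hk (h.centre_mem g) (h.ball_subset k hd)

lemma locfin (h : Ctx 𝒯 A x₀ ρ D) (p : Plane) (R : ℝ) :
    {T ∈ 𝒯 | (T ∩ closedBall p R).Nonempty}.Finite := by
  by_contra hinf
  have := Set.Infinite.to_subtype hinf
  have hex : ∀ T : {T ∈ 𝒯 | (T ∩ closedBall p R).Nonempty}, ∃ g : G, g '' A = T := fun T => by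
    obtain ⟨g, -, hg⟩ := h.trans T T.2.1
    exact ⟨g, hg⟩
  choose φ hφ using hex
  obtain ⟨S, T, hne, hd⟩ := pigeon (fun T => φ T x₀) p (R + D) (fun T => by
    obtain ⟨y, hy, hyp⟩ := T.2.2
    rw [← hφ T] at hy
    have := h.dist_le _ hy
    rw [mem_closedBall] at hyp ⊢
    linarith [dist_triangle_left (φ T x₀) p y]) h.pos
  apply hne
  apply Subtype.ext
  rw [← hφ S, ← hφ T]
  exact h.close (by rw [hφ]; exact S.2.1) (by rw [hφ]; exact T.2.1) hd

/-- The tile is not invariant under all rotations about a point. -/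
lemma not_round (h : Ctx 𝒯 A x₀ ρ D) (c : Plane) :
    ¬ ∀ z ∈ A, ∀ w, dist w c = dist z c → w ∈ A := by
  intro hr
  obtain ⟨z₁, hz₁, hmax⟩ := h.cpt.exists_isMaxOn h.nonempty
    (f := fun z => dist z c) (by fun_prop)
  set r := dist z₁ c with hrdef
  have hle : ∀ z ∈ A, dist z c ≤ r := fun z hz => hmax hz
  -- the inner centre is strictly inside
  have hlt : dist x₀ c < r := by
    have hρ := h.pos
    obtain ⟨v, hv⟩ := exists_norm_eq Plane (show 0 ≤ ρ / 2 by linarith)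
    have h1 := hle (x₀ + v) (h.inner (by simp [hv, hρ]))
    have h2 := hle (x₀ - v) (h.inner (by simp [hv, hρ]))
    have h3 := parallelogram_law_with_norm ℝ (x₀ - c) v
    rw [dist_eq_norm, show x₀ + v - c = x₀ - c + v by abel] at h1
    rw [dist_eq_norm, show x₀ - v - c = x₀ - c - v by abel] at h2
    rw [dist_eq_norm]
    by_contra h4
    rw [hv] at h3
    nlinarith [norm_nonneg (x₀ - c + v), norm_nonneg (x₀ - c - v), norm_nonneg (x₀ - c)]
  set r' := dist x₀ c with hr'def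
  have hr' : 0 ≤ r' := dist_nonneg
  have hint : ∀ (g : G) (w : Plane), r' < dist w (g c) → dist w (g c) < r →
      w ∈ interior (g '' A) := by
    intro g
    have hsub : {w : Plane | r' < dist w (g c) ∧ dist w (g c) < r} ⊆ g '' A := by
      rintro w ⟨h1, h2⟩
      obtain ⟨z, hz, hzw⟩ := h.conn.intermediate_value h.x₀_mem hz₁
        (f := fun z => dist z c) (by fun_prop) (show dist w (g c) ∈ Icc r' r from ⟨h1.le, h2.le⟩)
      refine ⟨g⁻¹ w, hr z hz _ ?_, by simp⟩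
      rw [← g.dist_eq, IsometryEquiv.apply_inv_self]
      exact hzw.symm
    have hopen : IsOpen {w : Plane | r' < dist w (g c) ∧ dist w (g c) < r} :=
      IsOpen.and (isOpen_lt continuous_const (by fun_prop))
        (isOpen_lt (by fun_prop) continuous_const)
    exact fun w h1 h2 => interior_maximal hsub hopen ⟨h1, h2⟩
  have hsep : ∀ g : G, g '' A ∈ 𝒯 → g '' A ≠ A → 2 * r ≤ dist c (g c) := by
    intro g hg hne
    by_contra hlt2
    rw [not_le] at hlt2
    obtain ⟨s, hs1, hs2⟩ := exists_between (max_lt hlt (show dist c (g c) / 2 < r by linarith))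
    have hs3 := (le_max_left _ _).trans_lt hs1
    have hs4 := (le_max_right _ _).trans_lt hs1
    have : ∃ p, dist p c = s ∧ dist p (g c) = s := by
      by_cases hc : c = g c
      · obtain ⟨v, hv⟩ := exists_norm_eq Plane (hr'.trans hs3.le)
        rw [← hc]
        exact ⟨c + v, by simp [hv], by simp [hv]⟩
      · exact circles_meet hc (by linarith)
    obtain ⟨p, hp1, hp2⟩ := this
    have i1 := hint 1 p (by simpa [hp1] using hs3) (by simpa [hp1] using hs2)
    rw [image_one] at i1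
    exact hne (h.til.eq_of_mem hg h.mem (hint g p (hp2 ▸ hs3) (hp2 ▸ hs2)) i1)
  have hrpos : 0 < r := hr'.trans_lt hlt
  -- the tiles near the outer circle
  have hfin := (h.locfin c (r + 1)).subset
    (s := {T ∈ 𝒯 | (T ∩ closedBall c (r + 1)).Nonempty})
    (t := {T ∈ 𝒯 | (T ∩ closedBall c (r + 1)).Nonempty ∧ T ≠ A}) fun T hT => ⟨hT.1, hT.2.1⟩
  have hex : ∀ T : Set Plane, ∃ g : G, T ∈ 𝒯 → g '' A = T := fun T => by
    by_cases hT : T ∈ 𝒯
    · obtain ⟨g, -, hg⟩ := h.trans T hT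
      exact ⟨g, fun _ => hg⟩
    · exact ⟨1, fun h' => absurd h' hT⟩
  choose φ hφ using hex
  apply sphere_infinite c hrpos
  refine (hfin.image fun T => midpoint ℝ c (φ T c)).subset fun p hp => ?_
  rw [mem_sphere] at hp
  have hcl : IsClosed (⋃ T ∈ {T ∈ 𝒯 | (T ∩ closedBall c (r + 1)).Nonempty ∧ T ≠ A}, T) :=
    hfin.isClosed_biUnion fun T hT => h.til.closed T hT.1
  have hpm : p ∈ ⋃ T ∈ {T ∈ 𝒯 | (T ∩ closedBall c (r + 1)).Nonempty ∧ T ≠ A}, T := by
    rw [← hcl.closure_eq, Metric.mem_closure_iff]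
    intro ε hε
    set t := min 1 (ε / 2) with ht
    have ht0 : 0 < t := by positivity
    have ht1 : t ≤ 1 := min_le_left _ _
    have ht2 : t ≤ ε / 2 := min_le_right _ _
    have hpn : ‖p - c‖ = r := by rw [← dist_eq_norm, hp]
    have d1 : dist (p + (t / r) • (p - c)) c = r + t := by
      have : p + (t / r) • (p - c) - c = (1 + t / r) • (p - c) := by module
      rw [dist_eq_norm, this, norm_smul, hpn, Real.norm_of_nonneg (by positivity)]
      field_simp
    have d2 : dist p (p + (t / r) • (p - c)) = t := by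
      rw [dist_self_add_right, norm_smul, hpn, Real.norm_of_nonneg (by positivity)]
      field_simp
    obtain ⟨T, hT, hq⟩ := h.til.exists_mem (p + (t / r) • (p - c))
    refine ⟨_, mem_biUnion (x := T) ⟨hT, ⟨_, hq, ?_⟩, ?_⟩ hq, by rw [d2]; linarith⟩
    · rw [mem_closedBall, d1]
      linarith
    · rintro rfl
      have := hle _ hq
      rw [d1] at this
      linarith
  simp only [mem_iUnion] at hpm
  obtain ⟨T, hT, hpT⟩ := hpm
  refine ⟨T, hT, ?_⟩
  have e := hφ T hT.1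
  have s1 := hsep (φ T) (by rw [e]; exact hT.1) (by rw [e]; exact hT.2.2)
  have s2 : dist p (φ T c) ≤ r := by
    rw [← e] at hpT
    obtain ⟨z, hz, rfl⟩ := hpT
    rw [IsometryEquiv.dist_eq]
    exact hle z hz
  have s3 := dist_triangle_left c (φ T c) p
  have s4 : dist c p = r := by rw [dist_comm, hp]
  symm
  apply eq_midpoint_of_dist_eq_half <;> linarith

/-- A symmetry of the tile that is close enough to a translation is the identity. -/
lemma exists_eps (h : Ctx 𝒯 A x₀ ρ D) :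
    ∃ ε > 0, ∀ u : G, u '' A = A → Small ε u → u = 1 := by
  by_contra hcon
  push Not at hcon
  obtain ⟨c, hc⟩ := round_of_small h.cpt.isClosed h.cpt.isBounded h.nonempty fun ε hε => by
    obtain ⟨u, h1, h2, h3⟩ := hcon ε hε
    exact ⟨u, h1, h3, h2⟩
  exact h.not_round c hc

/-- The tile has finitely many symmetries. -/
lemma sym_finite (h : Ctx 𝒯 A x₀ ρ D) : {u : G | u '' A = A}.Finite := by
  by_contra hinf
  obtain ⟨ε, hε, he⟩ := h.exists_eps
  obtain ⟨g, hg, k, hk, hne, hs⟩ := exists_small hinf hε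
  have := he _ (by
    rw [image_mul, hg]
    conv_lhs => rw [← hk]
    exact image_inv_image k A) hs
  exact hne (inv_mul_eq_one.1 this).symm

lemma Γ_infinite (h : Ctx 𝒯 A x₀ ρ D) : (Γ 𝒯 : Set G).Infinite := by
  intro hfin
  have hb : Bornology.IsBounded (⋃ g ∈ (Γ 𝒯 : Set G), closedBall (g x₀) D) :=
    (Bornology.isBounded_biUnion hfin).2 fun g _ => isBounded_closedBall
  apply NormedSpace.unbounded_univ ℝ Plane
  refine hb.subset fun y _ => ?_
  obtain ⟨T, hT, hy⟩ := h.til.exists_mem y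
  obtain ⟨g, hg, rfl⟩ := h.trans T hT
  exact mem_biUnion hg (h.dist_le g hy)

/-- The symmetry group contains a nontrivial translation. -/
lemma exists_translation (h : Ctx 𝒯 A x₀ ρ D) : ∃ τ ∈ Γ 𝒯, IsTr τ ∧ τ ≠ 1 := by
  obtain ⟨ε, hε, he⟩ := h.exists_eps
  have hD := h.D_nonneg
  have hρ := h.pos
  obtain ⟨g, hg, k, hk, hne, hs⟩ := exists_small h.Γ_infinite
    (ε := min (min 1 ε) (ρ / (D + 1))) (by positivity)
  have hm : k⁻¹ * g ∈ Γ 𝒯 := mul_mem (inv_mem hk) hg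
  have h1 : k⁻¹ * g ≠ 1 := fun h' => hne (inv_mul_eq_one.1 h').symm
  generalize k⁻¹ * g = t at hs hm h1
  refine ⟨t, hm, ?_, h1⟩
  obtain ⟨a, -, -, ha⟩ := hs.complex ((min_le_left _ _).trans (min_le_left _ _))
  by_cases ha1 : a = 1
  · intro v
    exact cx.injective (by simpa [ha1] using ha v)
  exfalso
  obtain ⟨p, hp, -⟩ := exists_fixed ha1 ha
  obtain ⟨T, hT, hpT⟩ := h.til.exists_mem p
  obtain ⟨w, hw, rfl⟩ := h.trans T hT
  have hd := h.dist_le w hpT
  have e1 : (t * w) '' A = w '' A := by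
    apply h.close (Γ_image (mul_mem hm hw) h.mem) hT
    have e2 : (t * w) x₀ - w x₀ = lin t (w x₀ - p) - (w x₀ - p) := by
      rw [lin_sub, hp, IsometryEquiv.mul_apply]
      abel
    have e3 := (hs.mono (min_le_right _ _)) (w x₀ - p)
    rw [dist_eq_norm, e2]
    rw [dist_comm, dist_eq_norm] at hd
    calc _ ≤ ρ / (D + 1) * ‖w x₀ - p‖ := e3
      _ ≤ ρ / (D + 1) * D := by gcongr
      _ < ρ := by
        rw [div_mul_eq_mul_div, div_lt_iff₀ (by positivity)]
        nlinarith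
  have e4 := he (w⁻¹ * t * w) (by rw [mul_assoc, image_mul, e1, image_inv_image])
    ((hs.mono ((min_le_left _ _).trans (min_le_right _ _))).conj w)
  apply h1
  have : t = w * (w⁻¹ * t * w) * w⁻¹ := by group
  rw [this, e4]
  group

end Ctx

end Pool.Agent.MP_5a5b3b_co.H17
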